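import Pool.Agent.H203R4.DF.Stmts

set_option autoImplicit false

namespace Pool.Agent.H203R4.DF

open Pool.Agent.Helper832.CD

universe u

theorem free2 : TaskFree.{u} := by
  intro G _ k E E' _ _ _ _ _ _ a a' C ha ha' hm hm' T σ hT
  set v : SS G (k + 1) → E' := fun z => a' z.1 (σ (a z.1⁻¹ (T (dl z)))) with hv
  have hb : ∃ K : ℝ, ∀ z, ‖v z‖ ≤ K := by
    refine ⟨|C| * (‖σ‖ * (|C| * ‖T‖)), fun z => ?_⟩
    have h1 : ‖T (dl z)‖ ≤ ‖T‖ := by
      have := T.le_opNorm (dl z)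
      rwa [norm_dl, mul_one] at this
    have h2 : ‖a z.1⁻¹ (T (dl z))‖ ≤ |C| * ‖T‖ :=
      (ha _ _).trans (mul_le_mul (le_abs_self C) h1 (norm_nonneg _) (abs_nonneg _))
    have h3 : ‖σ (a z.1⁻¹ (T (dl z)))‖ ≤ ‖σ‖ * (|C| * ‖T‖) :=
      (σ.le_opNorm _).trans (mul_le_mul_of_nonneg_left h2 (norm_nonneg _))
    exact (ha' _ _).trans (mul_le_mul (le_abs_self C) h3 (norm_nonneg _) (abs_nonneg _))
  refine ⟨ext v, ?_, fun g x => ext_dl v hb _⟩
  intro g f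
  have h : (ext v).comp (rho g) = (a' g).comp (ext v) := by
    refine clm_ext fun z => ?_
    rw [ContinuousLinearMap.comp_apply, ContinuousLinearMap.comp_apply, rho_dl, ext_dl v hb,
      ext_dl v hb]
    show a' (g * z.1) (σ (a (g * z.1)⁻¹ (T (dl (g • z))))) = a' g (a' z.1 (σ (a z.1⁻¹ (T (dl z)))))
    rw [← hm', ← rho_dl, hT, ← hm]
    congr 4
    group
  exact congrArg (fun A => A f) h

theorem hom2 : TaskHom.{u} := by
  intro G _ X Y f hf hfg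
  refine ⟨hf, fun b x => ?_⟩
  have hX : IsBoundedLinearMap ℂ (fun b : Alg G => X.act b x) := X.bdd.isBoundedLinearMap_left x
  have hY : IsBoundedLinearMap ℂ (fun b : Alg G => Y.act b (f x)) :=
    Y.bdd.isBoundedLinearMap_left (f x)
  have h1 : IsBoundedLinearMap ℂ (fun b : Alg G => f (X.act b x) - Y.act b (f x)) :=
    (hf.comp hX).sub hY
  rw [← sub_eq_zero]
  refine SeparatingDual.eq_zero_of_forall_dual_eq_zero (R := ℂ) fun φ => ?_
  set ψ : StrongDual ℂ (Alg G) := φ.comp h1.toContinuousLinearMap with hψ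
  have h2 : ‖ψ‖ ≤ 0 := by
    refine H263R3.Arens.norm_le_of_delta _ ψ 0 fun s => ?_
    have h3 : ψ (dg1 s) = φ (f (X.act (dg1 s) x) - Y.act (dg1 s) (f x)) := rfl
    rw [h3, hfg, sub_self, map_zero, norm_zero, zero_mul]
  have h4 : ψ b = φ (f (X.act b x) - Y.act b (f x)) := rfl
  rw [← h4, ← norm_le_zero_iff]
  calc ‖ψ b‖ ≤ ‖ψ‖ * ‖b‖ := ψ.le_opNorm b
    _ ≤ 0 * ‖b‖ := mul_le_mul_of_nonneg_right h2 (norm_nonneg _)
    _ = 0 := zero_mul _

end Pool.Agent.H203R4.DF
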