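import Pool.Agent.H203R4.DF.Stmts

/-! Task Irr of project H203DF (helper744). -/

set_option autoImplicit false

namespace Pool.Agent.H203R4.DF

open Pool.Agent.Helper832.CD

universe u

/-- TASK Irr, from TASK Act. -/
theorem taskIrr (hAct : TaskAct.{u}) : TaskIrr.{u} := by
  intro G _
  obtain ⟨act, hb, hm, hd⟩ := hAct G (ULift.{u} ℂ) (fun _ => ContinuousLinearMap.id ℂ _)
    (fun _ _ _ => rfl) (fun _ _ => le_rfl)
  have hd' : ∀ (g : G) (x : ULift.{u} ℂ), act (dg1 g) x = x := fun g x => hd g x
  refine ⟨{ carrier := ULift.{u} ℂ, act := act, bdd := hb, act_mul := hm },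
    (ContinuousLinearEquiv.ulift (R₁ := ℂ) (M₁ := ℂ)).symm, hd', ?_, ?_⟩
  · refine ⟨dg1 1, ULift.up 1, ?_⟩
    show act (dg1 1) (ULift.up 1) ≠ 0
    rw [hd']
    intro h
    exact one_ne_zero (congrArg ULift.down h)
  · intro N _
    by_cases h : ∃ v ∈ N, v ≠ 0
    · right
      obtain ⟨v, hv, hv0⟩ := h
      rw [eq_top_iff]
      intro w _
      have hv0' : v.down ≠ 0 := fun h => hv0 (ULift.ext _ _ h)
      have e : w = (w.down / v.down) • v := by
        apply ULift.ext
        show w.down = (w.down / v.down) * v.down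
        field_simp
      rw [e]
      exact N.smul_mem _ hv
    · left
      push Not at h
      rw [eq_bot_iff]
      intro v hv
      rw [Submodule.mem_bot]
      exact h v hv

end Pool.Agent.H203R4.DF
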