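import Pool.Agent.H203R4.DF.StepB

set_option autoImplicit false

namespace Pool.Agent.H203R4.DF

open Topology Filter

universe u

theorem step (hKK : TaskKK.{u}) (hMin : TaskMin.{u}) : TaskStep.{u} := by
  intro G _ S T _ _ _ _ D s hD hSt
  obtain ⟨Y, i1, i2, i3, i4, y0, P, C, hG, hmin, hPC, hP, hc, hV1, hV2⟩ := hSt
  set R : ℝ := |C| * ‖s‖ with hR
  have hR0 : 0 ≤ R := by positivity
  set z0 : ZZ T S := fun t a => P y0 (s (dl t)) a with hz0def
  have hb : ∀ t, ‖P y0 (s (dl t))‖ ≤ R := by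
    intro t
    refine ((P y0).le_opNorm _).trans ?_
    rw [hR]
    refine mul_le_mul ((hPC y0).trans (le_abs_self C)) ?_ (norm_nonneg _) (abs_nonneg _)
    have := s.le_opNorm (dl t)
    rwa [norm_dl, mul_one] at this
  have hz0 : z0 ∈ BZ T S R := fun t F => (sum_norm_le _ F).trans (hb t)
  have hz0' : ∀ f, Zop z0 f = P y0 (s f) := by
    have h1 : Zop z0 = (P y0).comp s := by
      refine clm_ext fun t => ?_
      rw [Zop_dl R z0 hz0]
      ext a
      rw [mk_apply _ R (hz0 t)]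
      rfl
    intro f
    exact congrArg (fun A => A f) h1
  -- the compact space
  have hcX : ∀ g : G, Continuous fun w : Y × ZZ T S => g • w := fun g =>
    ((hG g).comp continuous_fst).prodMk ((cont_smulZ g).comp continuous_snd)
  set B : Set (Y × ZZ T S) := Set.univ ×ˢ BZ T S R with hB
  have hBc : IsCompact B := isCompact_univ.prod (isCompact_BZ R)
  have hBs : ∀ g : G, ∀ w ∈ B, g • w ∈ B := fun g w hw => ⟨trivial, BZ_smul R g w.2 hw.2⟩
  set w0 : Y × ZZ T S := (y0, z0) with hw0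
  set O : Set (Y × ZZ T S) := Set.range fun g : G => g • w0 with hO
  have hOB : O ⊆ B := by
    rintro _ ⟨g, rfl⟩
    exact hBs g w0 ⟨trivial, hz0⟩
  have hKB : closure O ⊆ B := hBc.isClosed.closure_subset_iff.2 hOB
  have hKc : IsCompact (closure O) := hBc.of_isClosed_subset isClosed_closure hKB
  have hKs : ∀ g : G, ∀ w ∈ closure O, g • w ∈ closure O := by
    intro g w hw
    have h1 : Set.MapsTo (fun w : Y × ZZ T S => g • w) O O := by
      rintro _ ⟨h, rfl⟩
      exact ⟨g * h, mul_smul g h w0⟩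
    exact h1.closure (hcX g) hw
  obtain ⟨M, hMK, hMc, hMne, hMs, hMmin⟩ := hMin G (Y × ZZ T S) hcX (closure O) hKc
    ⟨w0, subset_closure ⟨1, one_smul G w0⟩⟩ hKs
  -- the fiber over `y0`
  have hfib : ∃ w ∈ M, w.1 = y0 := by
    obtain ⟨w, hw⟩ := hMne
    have h1 : IsClosed (Prod.fst '' M) := (hMc.image continuous_fst).isClosed
    have h2 : Set.range (fun g : G => g • w.1) ⊆ Prod.fst '' M := by
      rintro _ ⟨g, rfl⟩
      exact ⟨g • w, hMs g w hw, rfl⟩
    have h3 : y0 ∈ Prod.fst '' M := by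
      have h4 := h1.closure_subset_iff.2 h2
      rw [(hmin w.1).closure_eq] at h4
      exact h4 trivial
    obtain ⟨w', hw', h5⟩ := h3
    exact ⟨w', hw', h5⟩
  obtain ⟨wf, hwf, hwf1⟩ := hfib
  -- the new space
  let act : MulAction G M :=
    { smul := fun g w => ⟨g • w.1, hMs g w.1 w.2⟩
      one_smul := fun w => Subtype.ext (one_smul G w.1)
      mul_smul := fun g h w => Subtype.ext (mul_smul g h w.1) }
  have hsm : ∀ (g : G) (w : M), ((g • w : M) : Y × ZZ T S) = g • (w : Y × ZZ T S) := fun _ _ => rfl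
  have hMcs : CompactSpace M := isCompact_iff_compactSpace.1 hMc
  have hactc : ∀ g : G, Continuous fun w : M => g • w := fun g =>
    Continuous.subtype_mk ((hcX g).comp continuous_subtype_val) _
  have hdense : ∀ w : M, Dense (Set.range fun g : G => g • w) := by
    intro w
    rw [Subtype.dense_iff]
    refine (hMmin w.1 w.2).trans (closure_mono ?_)
    rintro _ ⟨g, rfl⟩
    exact ⟨g • w, ⟨g, rfl⟩, rfl⟩
  have hMB : ∀ w : M, (w : Y × ZZ T S).2 ∈ BZ T S R := fun w => (hKB (hMK w.2)).2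
  -- Baire category
  let ι := (T × ℕ) ⊕ (S × ℕ)
  let Os : ι → Set M := fun i => match i with
    | Sum.inl (t, m) => {w : M | ∃ U : Set M, IsOpen U ∧ w ∈ U ∧ ∀ w' ∈ U, ∀ w'' ∈ U,
        ∀ F : Finset S, ∑ a ∈ F, ‖w'.1.2 t a - w''.1.2 t a‖ ≤ 1 / ((m : ℝ) + 1)}
    | Sum.inr (x, m) => (fun w : M => w.1.1) ⁻¹' {y : Y | ∃ U : Set Y, IsOpen U ∧ y ∈ U ∧
        ∀ y' ∈ U, ∀ y'' ∈ U, ‖P y' (dl x) - P y'' (dl x)‖ ≤ 1 / ((m : ℝ) + 1)}
  have hOo : ∀ i, IsOpen (Os i) := by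
    rintro (⟨t, m⟩ | ⟨x, m⟩)
    · exact isOpen_osc (W := M) (fun w' w'' => ∀ F : Finset S,
        ∑ a ∈ F, ‖w'.1.2 t a - w''.1.2 t a‖ ≤ 1 / ((m : ℝ) + 1))
    · exact (isOpen_osc (W := Y) (fun y' y'' =>
        ‖P y' (dl x) - P y'' (dl x)‖ ≤ 1 / ((m : ℝ) + 1))).preimage
        (continuous_fst.comp continuous_subtype_val)
  have hOd : ∀ i, Dense (Os i) := by
    rintro (⟨t, m⟩ | ⟨x, m⟩)
    · exact hKK M S (fun w a => w.1.2 t a) R
        (fun a => (cont_eval t a).comp (continuous_snd.comp continuous_subtype_val))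
        (fun w F => hMB w t F) (1 / ((m : ℝ) + 1)) (by positivity)
    · refine (hdense ⟨wf, hwf⟩).mono ?_
      rintro _ ⟨g, rfl⟩
      obtain ⟨U, hU, hyU, h⟩ := osc_orbit hG y0 P hP hc x g (1 / ((m : ℝ) + 1)) (by positivity)
      refine ⟨U, hU, ?_, h⟩
      show (g • wf).1 ∈ U
      have : (g • wf).1 = g • y0 := by rw [← hwf1]; rfl
      rw [this]
      exact hyU
  have hne : Nonempty M := ⟨⟨wf, hwf⟩⟩
  have hBaire : Dense (⋂ i, Os i) := dense_iInter_of_isOpen hOo hOd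
  obtain ⟨w1, hw1⟩ := hBaire.nonempty
  rw [Set.mem_iInter] at hw1
  -- continuity at `w1`
  have hcP : ∀ x : S, ContinuousAt (fun y => P y (dl x)) w1.1.1 := by
    intro x
    rw [Metric.continuousAt_iff']
    intro ε hε
    obtain ⟨m, hm⟩ := exists_nat_one_div_lt hε
    obtain ⟨U, hU, hwU, h⟩ := hw1 (Sum.inr (x, m))
    filter_upwards [hU.mem_nhds hwU] with y hy
    rw [dist_eq_norm]
    exact (h y hy w1.1.1 hwU).trans_lt hm
  have hcz : ∀ t : T, ContinuousAt (fun w : M => (mk (w.1.2 t) : L S)) w1 := by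
    intro t
    rw [Metric.continuousAt_iff']
    intro ε hε
    obtain ⟨m, hm⟩ := exists_nat_one_div_lt hε
    obtain ⟨U, hU, hwU, h⟩ := hw1 (Sum.inl (t, m))
    filter_upwards [hU.mem_nhds hwU] with w hw
    rw [dist_eq_norm]
    refine lt_of_le_of_lt (norm_le_of_sum_le _ (1 / ((m : ℝ) + 1)) fun F => ?_) hm
    have h1 := h w hw w1 hwU F
    refine le_trans (le_of_eq (Finset.sum_congr rfl fun a _ => ?_)) h1
    rw [lp.coeFn_sub, Pi.sub_apply, mk_apply _ R (hMB w t), mk_apply _ R (hMB w1 t)]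
  obtain ⟨hr1, hr2⟩ := limit_rel D s hD y0 P hP hV1 hV2 R z0 hz0 hz0' w1.1 (hMB w1)
    (hMK w1.2) hcP
  refine ⟨M, inferInstance, hMcs, inferInstance, act, w1, fun w => PP D w.1.2, 1 + ‖D‖ * R,
    hactc, hdense, fun w => ?_, fun g w f => ?_, fun t => ?_, fun f => ?_, fun f => ?_⟩
  · refine ContinuousLinearMap.opNorm_le_bound _ (by positivity) fun f => ?_
    rw [PP_apply]
    have h1 := D.le_opNorm (Zop w.1.2 f)
    have h2 := Zop_apply_le R w.1.2 (hMB w) f
    calc ‖f - D (Zop w.1.2 f)‖ ≤ ‖f‖ + ‖D (Zop w.1.2 f)‖ := norm_sub_le _ _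
      _ ≤ ‖f‖ + ‖D‖ * (R * ‖f‖) := by
          refine add_le_add le_rfl (h1.trans ?_)
          exact mul_le_mul_of_nonneg_left h2 (norm_nonneg _)
      _ = (1 + ‖D‖ * R) * ‖f‖ := by ring
  · show PP D (g • w.1.2) (rho g f) = rho g (PP D w.1.2 f)
    rw [PP_apply, PP_apply, Zop_smul R g _ (hMB w), hD, map_sub]
  · have h1 : (fun w : M => PP D w.1.2 (dl t)) = fun w : M => dl t - D (mk (w.1.2 t)) := by
      funext w
      rw [PP_apply, Zop_dl R _ (hMB w)]
    rw [h1]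
    exact continuousAt_const.sub (D.continuous.continuousAt.comp (hcz t))
  · show PP D w1.1.2 (D f) = 0
    rw [PP_apply, hr1, hr2, sub_self]
  · exact ⟨Zop w1.1.2 f, rfl⟩

end Pool.Agent.H203R4.DF
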