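import Pool.Agent.H203R4.DF.Stmts

set_option autoImplicit false

/-!
# TaskFinal (helper871)
-/

namespace Pool.Agent.H203R4.DF.Fin871

open Pool.Agent.H203R4.DF

universe u

variable {G : Type u}

/-- the empty tuple -/
def pt0 (G : Type u) : SS G 0 := PUnit.unit

/-- the one-tuple `(g)` -/
def pt (g : G) : SS G 1 := ((g, pt0 G) : G × SS G 0)

lemma pt_surj (a : SS G 1) : ∃ g : G, a = pt g := ⟨a.1, rfl⟩

lemma pt_inj {g h : G} (e : pt g = pt h) : g = h := congrArg Prod.fst e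

lemma smul_pt [Group G] (g h : G) : g • pt h = pt (g * h) := rfl

lemma bd0_pt (g : G) : bd G 0 (dl (pt g)) = dl (pt0 G) :=
  ext_dl (bdv G 0) ⟨1, fun _ => (norm_dl _).le⟩ (pt g)

lemma bdv1 (x : SS G 2) : bdv G 1 x = dl (pt x.2.1) - dl (pt x.1) := by
  show dl x.2 - jn G 0 x.1 (dl x.2.2) = _
  have h : jn G 0 x.1 (dl x.2.2) = dl (pt x.1) :=
    ext_dl (fun y : SS G 0 => dl ((x.1, y) : SS G 1)) ⟨1, fun _ => (norm_dl _).le⟩ x.2.2
  rw [h]
  rfl

lemma bd1_pt (g h : G) : bd G 1 (dl ((g, pt h) : SS G 2)) = dl (pt h) - dl (pt g) := by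
  have e : bd G 1 (dl ((g, pt h) : SS G 2)) = bdv G 1 ((g, pt h) : SS G 2) := by
    refine ext_dl (bdv G 1) ⟨2, fun x => ?_⟩ _
    rw [bdv1]
    refine (norm_sub_le _ _).trans ?_
    rw [norm_dl, norm_dl]
    norm_num
  exact e.trans (bdv1 _)

theorem returns {Y : Type u} [Group G] [Infinite G] [TopologicalSpace Y] [CompactSpace Y]
    [MulAction G Y] (hc : ∀ g : G, Continuous (fun y : Y => g • y))
    (hd : ∀ y : Y, Dense (Set.range (fun g : G => g • y))) (y0 : Y) {U : Set Y} (hU : IsOpen U)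
    (hne : U.Nonempty) : {g : G | g • y0 ∈ U}.Infinite := by
  intro hfin
  obtain ⟨t, ht⟩ := isCompact_univ.elim_finite_subcover (fun g : G => (fun y : Y => g • y) ⁻¹' U)
    (fun g => hU.preimage (hc g)) (by
      intro y _
      obtain ⟨_, ⟨g, rfl⟩, hzU⟩ := (hd y).exists_mem_open hU hne
      exact Set.mem_iUnion.2 ⟨g, hzU⟩)
  have : (Set.univ : Set G) ⊆ ⋃ g ∈ (t : Set G), (fun r : G => g⁻¹ * r) '' {g : G | g • y0 ∈ U} := by
    intro h _
    have h1 := ht (Set.mem_univ (h • y0))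
    simp only [Set.mem_iUnion, Set.mem_preimage] at h1
    obtain ⟨g, hg, hgU⟩ := h1
    simp only [Set.mem_iUnion]
    refine ⟨g, hg, g * h, ?_, by simp⟩
    show (g * h) • y0 ∈ U
    rw [mul_smul]; exact hgU
  exact Set.infinite_univ ((t.finite_toSet.biUnion fun g _ => hfin.image _).subset this)

theorem taskFinal : TaskFinal.{u} := by
  intro G _ _ hSt
  obtain ⟨Y, iT, iC, iT2, iA, y0, P, C, hcont, hdense, -, hequi, hca, hq1, hq2⟩ := hSt
  set kap : L (SS G 1) := P y0 (dl (pt 1)) with hkap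
  have hconst : ∀ g : G, P y0 (dl (pt g)) = kap := by
    intro g
    have h := hq1 (dl ((1, pt g) : SS G 2))
    rw [bd1_pt, map_sub, sub_eq_zero] at h
    exact h
  have hk0 : kap ≠ 0 := by
    intro h0
    have h := hq2 (dl (pt 1))
    rw [← hkap, h0, map_zero, bd0_pt] at h
    have h2 := norm_dl (pt0 G)
    rw [← h, norm_zero] at h2
    exact zero_ne_one h2
  obtain ⟨a, ha⟩ : ∃ a, kap a ≠ 0 := by
    by_contra hcon
    push Not at hcon
    exact hk0 (lp.ext (funext hcon))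
  set c : ℝ := ‖kap a‖ with hc
  have hc0 : 0 < c := norm_pos_iff.2 ha
  have hev : ∀ᶠ y in nhds y0, ‖P y (dl (pt 1)) - kap‖ < c / 2 := by
    have h := (hca (pt 1)).eventually (Metric.ball_mem_nhds _ (half_pos hc0))
    filter_upwards [h] with y hy
    rwa [dist_eq_norm] at hy
  obtain ⟨U, hUsub, hUo, hy0⟩ := mem_nhds_iff.1 hev
  have hR := returns hcont hdense y0 hUo ⟨y0, hy0⟩
  have hbig : ∀ g : G, g • y0 ∈ U → c / 2 ≤ ‖kap (g • a)‖ := by
    intro g hg
    have h1 : ‖P (g • y0) (dl (pt 1)) - kap‖ < c / 2 := hUsub hg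
    have h2 : P (g • y0) (dl (pt 1)) = rho g kap := by
      have e := hequi g y0 (dl (pt g⁻¹))
      rw [rho_dl, smul_pt, mul_inv_cancel, hconst] at e
      exact e
    rw [h2] at h1
    have h3 := norm_apply_le (rho g kap - kap) (g • a)
    rw [lp.coeFn_sub, Pi.sub_apply, rho_apply, inv_smul_smul] at h3
    have h4 := norm_sub_norm_le (kap a) (kap (g • a))
    linarith
  obtain ⟨a0, rfl⟩ := pt_surj a
  obtain ⟨N, hN⟩ := exists_nat_gt (‖kap‖ / (c / 2))
  obtain ⟨F, hFR, hFN⟩ := hR.exists_subset_card_eq N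
  have hinj : Set.InjOn (fun g : G => g • pt a0) (F : Set G) := by
    intro g _ h _ e
    have := pt_inj (g := g * a0) (h := h * a0) e
    exact mul_right_cancel this
  classical
  have hs := sum_norm_le kap (F.image fun g : G => g • pt a0)
  rw [Finset.sum_image hinj] at hs
  have hs2 : (N : ℝ) * (c / 2) ≤ ∑ g ∈ F, ‖kap (g • pt a0)‖ := by
    rw [← hFN, ← nsmul_eq_mul]
    exact Finset.card_nsmul_le_sum _ _ _ fun g hg => hbig g (hFR hg)
  rw [div_lt_iff₀ (half_pos hc0)] at hN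
  linarith

end Pool.Agent.H203R4.DF.Fin871
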