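import Pool.Agent.H203R4.DF.Defs
import Pool.Agent.H203R3.BH.Defs
import Pool.Agent.H263R3.L1Def

set_option autoImplicit false

namespace Pool.Agent.H203R4.DF

open Pool.Agent.Helper832.CD

universe u

/-- The Banach algebra `ℓ¹(G)`: the completion of the complex group algebra in the `ℓ¹` norm. -/
abbrev Alg (G : Type u) [Group G] : Type u := H263R3.Arens.L1 G (H263R3.Arens.Weight.trivial G)

/-- The point mass at `g` in `ℓ¹(G)`. -/
noncomputable abbrev dg1 {G : Type u} [Group G] (g : G) : Alg G :=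
  H263R3.Arens.delta (H263R3.Arens.Weight.trivial G) g

/-- A compact minimal `G`-space `Y` with a bounded equivariant family of operators on `ℓ¹(S)`,
which is continuous at a point `y0` (pointwise in norm) and has the property `V` at `y0`. -/
def St (G : Type u) [Group G] (S : Type u) [MulAction G S] (V : (L S →L[ℂ] L S) → Prop) : Prop :=
  ∃ (Y : Type u) (_ : TopologicalSpace Y) (_ : CompactSpace Y) (_ : T2Space Y) (_ : MulAction G Y)
    (y0 : Y) (P : Y → (L S →L[ℂ] L S)) (C : ℝ),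
    (∀ g : G, Continuous (fun y : Y => g • y)) ∧
    (∀ y : Y, Dense (Set.range (fun g : G => g • y))) ∧
    (∀ y, ‖P y‖ ≤ C) ∧
    (∀ (g : G) (y : Y) (f : L S), P (g • y) (rho g f) = rho g (P y f)) ∧
    (∀ x : S, ContinuousAt (fun y => P y (dl x)) y0) ∧ V (P y0)

/-- TASK KK. -/
def TaskKK : Prop := ∀ (W : Type u) [TopologicalSpace W] (S : Type u) (z : W → S → ℂ) (R : ℝ),
  (∀ s, Continuous fun w => z w s) → (∀ w (F : Finset S), ∑ s ∈ F, ‖z w s‖ ≤ R) →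
  ∀ ε : ℝ, 0 < ε → Dense {w : W | ∃ U : Set W, IsOpen U ∧ w ∈ U ∧ ∀ w' ∈ U, ∀ w'' ∈ U,
    ∀ F : Finset S, ∑ s ∈ F, ‖z w' s - z w'' s‖ ≤ ε}

/-- TASK Min. -/
def TaskMin : Prop := ∀ (G : Type u) [Group G] (X : Type u) [TopologicalSpace X] [T2Space X]
  [MulAction G X], (∀ g : G, Continuous (fun y : X => g • y)) → ∀ K : Set X, IsCompact K →
  K.Nonempty → (∀ (g : G), ∀ x ∈ K, g • x ∈ K) →
  ∃ M : Set X, M ⊆ K ∧ IsCompact M ∧ M.Nonempty ∧ (∀ (g : G), ∀ x ∈ M, g • x ∈ M) ∧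
    ∀ x ∈ M, M ⊆ closure (Set.range (fun g : G => g • x))

/-- TASK Step. -/
def TaskStep : Prop := ∀ (G : Type u) [Group G] (S T : Type u) [MulAction G S] [MulAction G T]
  [Countable S] [Countable T] (D : L S →L[ℂ] L T) (s : L T →L[ℂ] L S),
  (∀ (g : G) (f : L S), D (rho g f) = rho g (D f)) →
  St G S (fun p => (∀ f, p (s (D f)) = p f) ∧ ∀ f, D (p f) = D f) →
  St G T (fun q => (∀ f, q (D f) = 0) ∧ ∀ f, ∃ h, q f = f - D h)

/-- TASK Final. -/
def TaskFinal : Prop := ∀ (G : Type u) [Group G] [Infinite G], ¬ St G (SS G 1)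
  (fun q => (∀ f, q (bd G 1 f) = 0) ∧ ∀ f, bd G 0 (q f) = bd G 0 f)

/-- TASK Complex. -/
def TaskComplex : Prop := ∀ (G : Type u) [Group G],
  (∀ f, bd G 0 (jn G 0 1 f) = f) ∧
  (∀ k f, bd G (k + 1) (jn G (k + 1) 1 f) + jn G k 1 (bd G k f) = f) ∧
  (∀ k f, bd G k (bd G (k + 1) f) = 0) ∧
  ∀ k (g : G) f, bd G k (rho g f) = rho g (bd G k f)

/-- TASK Act. -/
def TaskAct : Prop := ∀ (G : Type u) [Group G] (E : Type u) [NormedAddCommGroup E]
  [NormedSpace ℂ E] [CompleteSpace E] (a : G → E →L[ℂ] E), (∀ g h x, a (g * h) x = a g (a h x)) →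
  (∀ g x, ‖a g x‖ ≤ ‖x‖) →
  ∃ act : Alg G → E → E, IsBoundedBilinearMap ℂ (fun p : Alg G × E => act p.1 p.2) ∧
    (∀ b c x, act (b * c) x = act b (act c x)) ∧ ∀ g x, act (dg1 g) x = a g x

/-- TASK Hom. -/
def TaskHom : Prop := ∀ (G : Type u) [Group G] (X Y : LMod (Alg G)) (f : X.carrier → Y.carrier),
  IsBoundedLinearMap ℂ f → (∀ g x, f (X.act (dg1 g) x) = Y.act (dg1 g) (f x)) → LMod.IsHom X Y f

/-- TASK Free. -/
def TaskFree : Prop := ∀ (G : Type u) [Group G] (k : ℕ) (E E' : Type u) [NormedAddCommGroup E]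
  [NormedSpace ℂ E] [CompleteSpace E] [NormedAddCommGroup E'] [NormedSpace ℂ E'] [CompleteSpace E']
  (a : G → E →L[ℂ] E) (a' : G → E' →L[ℂ] E') (C : ℝ), (∀ g x, ‖a g x‖ ≤ C * ‖x‖) →
  (∀ g x, ‖a' g x‖ ≤ C * ‖x‖) → (∀ g h x, a (g * h) x = a g (a h x)) →
  (∀ g h x, a' (g * h) x = a' g (a' h x)) →
  ∀ (T : L (SS G (k + 1)) →L[ℂ] E) (σ : E →L[ℂ] E'), (∀ g f, T (rho g f) = a g (T f)) →
  ∃ T' : L (SS G (k + 1)) →L[ℂ] E', (∀ g f, T' (rho g f) = a' g (T' f)) ∧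
    ∀ (g : G) (x : SS G k), T' (dl ((g, x) : SS G (k + 1))) =
      a' g (σ (a g⁻¹ (T (dl ((g, x) : SS G (k + 1))))))

/-- TASK Comp: comparison with a finite resolution of the trivial module. -/
def TaskComp : Prop := ∀ (G : Type u) [Group G] (X : LMod (Alg G))
  (i : ℂ ≃L[ℂ] X.carrier), (∀ (g : G) x, X.act (dg1 g) x = x) → ∀ n : ℕ,
  X.HasResolution n → Splits G n

/-- TASK Sub: reduction to a countable subgroup. -/
def TaskSub : Prop := ∀ (G : Type u) [Group G] [Infinite G] (n : ℕ), Splits G n →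
  ∃ H : Subgroup G, Countable H ∧ Infinite H ∧ Splits H n

/-- TASK Irr: the trivial module exists and is irreducible. -/
def TaskIrr : Prop := ∀ (G : Type u) [Group G], ∃ (X : LMod (Alg G)) (_ : ℂ ≃L[ℂ] X.carrier),
  (∀ (g : G) x, X.act (dg1 g) x = x) ∧ Pool.Agent.H203R3.BH.IsIrreducible X

end Pool.Agent.H203R4.DF
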