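import Pool.Agent.H203R4.DF.Asm
import Pool.Agent.H203R4.DF.StepC
import Pool.Agent.H203R4.DF.Free2
import Pool.Agent.H203R4.DF.TFinal
import Pool.Agent.H203R4.DF.Irr
import Pool.Agent.H377R4.KK
import Pool.Agent.H789R5.DF_Min
import Pool.Agent.H245R3.DFCx
import Pool.Agent.H632R3.DF.Act
import Pool.Agent.H817R4.DF.Comp
import Pool.Agent.H368.DF.Sub

set_option autoImplicit false

namespace Pool.Agent.H203R4.DF

open Pool.Agent.Helper832.CD

universe u

theorem all (G : Type u) [Group G] [Infinite G] :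
    (∀ (X : LMod (Alg G)) (_ : ℂ ≃L[ℂ] X.carrier), (∀ (g : G) x, X.act (dg1 g) x = x) →
      X.dh = ⊤) ∧ Pool.Agent.H203R3.BH.ds (Alg G) = ⊤ ∧ dg (Alg G) = ⊤ :=
  main (step Pool.Agent.H377R4.DF.taskKK taskMin) Fin871.taskFinal
    Pool.Agent.H245R3.DFCx.taskComplex
    (Pool.Agent.H817R4.DF.comp taskAct hom2 free2 Pool.Agent.H245R3.DFCx.taskComplex)
    Pool.Agent.H368.DF.taskSub (taskIrr taskAct) G

end Pool.Agent.H203R4.DF
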