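import Pool.Agent.H203R4.DF.Stmts

set_option autoImplicit false

namespace Pool.Agent.H203R4.DF

open Pool.Agent.Helper832.CD

universe u

/-- The descent. -/
theorem not_splits_countable (hStep : TaskStep.{u}) (hFin : TaskFinal.{u}) (hC : TaskComplex.{u})
    (G : Type u) [Group G] [Infinite G] [Countable G] (n : ℕ) : ¬ Splits G n := by
  obtain ⟨hC0, hC1, hC2, hC3⟩ := hC G
  have key : ∀ n : ℕ, ¬ St G (SS G (n + 1))
      (fun q => (∀ f, q (bd G (n + 1) f) = 0) ∧ ∀ f, bd G n (q f) = bd G n f) := by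
    intro n
    induction n with
    | zero => exact hFin G
    | succ n ih =>
      intro h
      apply ih
      have h1 : St G (SS G (n + 1 + 1)) (fun p => (∀ f, p (jn G (n + 1) 1 (bd G (n + 1) f)) = p f) ∧
          ∀ f, bd G (n + 1) (p f) = bd G (n + 1) f) := by
        obtain ⟨Y, i1, i2, i3, i4, y0, P, C, ha, hb, hc, hd, he, hf1, hf2⟩ := h
        refine ⟨Y, i1, i2, i3, i4, y0, P, C, ha, hb, hc, hd, he, fun f => ?_, hf2⟩
        have h2 := hC1 (n + 1) f
        have h3 : jn G (n + 1) 1 (bd G (n + 1) f) = f - bd G (n + 2) (jn G (n + 2) 1 f) := by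
          exact eq_sub_of_add_eq' h2
        rw [h3, map_sub, hf1, sub_zero]
      have h2 := hStep G (SS G (n + 1 + 1)) (SS G (n + 1)) (bd G (n + 1)) (jn G (n + 1) 1)
        (fun g f => hC3 (n + 1) g f) h1
      obtain ⟨Y, i1, i2, i3, i4, y0, P, C, ha, hb, hc, hd, he, hf1, hf2⟩ := h2
      refine ⟨Y, i1, i2, i3, i4, y0, P, C, ha, hb, hc, hd, he, hf1, fun f => ?_⟩
      obtain ⟨h, hh⟩ := hf2 f
      rw [hh, map_sub, hC2, sub_zero]
  rintro ⟨p, hp1, hp2, hp3⟩
  refine key n ⟨PUnit, inferInstance, inferInstance, inferInstance,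
    { smul := fun _ _ => PUnit.unit, one_smul := fun _ => rfl, mul_smul := fun _ _ _ => rfl },
    PUnit.unit, fun _ => p, ‖p‖, fun g => continuous_of_const fun _ _ => rfl, fun y => ?_,
    fun _ => le_rfl, fun g _ f => hp1 g f, fun x => continuousAt_const, hp2, hp3⟩
  intro z
  exact subset_closure ⟨1, rfl⟩

theorem dh_eq_top (hStep : TaskStep.{u}) (hFin : TaskFinal.{u}) (hC : TaskComplex.{u})
    (hComp : TaskComp.{u}) (hSub : TaskSub.{u}) (G : Type u) [Group G] [Infinite G]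
    (X : LMod (Alg G)) (i : ℂ ≃L[ℂ] X.carrier) (hX : ∀ (g : G) x, X.act (dg1 g) x = x) :
    X.dh = ⊤ := by
  have h1 : ∀ n : ℕ, ¬ X.HasResolution n := by
    intro n hn
    obtain ⟨H, h1, h2, h3⟩ := hSub G n (hComp G X i hX n hn)
    exact not_splits_countable hStep hFin hC H n h3
  simp only [LMod.dh, iInf_eq_top]
  intro n hn
  exact absurd hn (h1 n)

theorem main (hStep : TaskStep.{u}) (hFin : TaskFinal.{u}) (hC : TaskComplex.{u})
    (hComp : TaskComp.{u}) (hSub : TaskSub.{u}) (hIrr : TaskIrr.{u}) (G : Type u) [Group G]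
    [Infinite G] :
    (∀ (X : LMod (Alg G)) (_ : ℂ ≃L[ℂ] X.carrier), (∀ (g : G) x, X.act (dg1 g) x = x) →
      X.dh = ⊤) ∧ Pool.Agent.H203R3.BH.ds (Alg G) = ⊤ ∧ dg (Alg G) = ⊤ := by
  have h1 : Pool.Agent.H203R3.BH.ds (Alg G) = ⊤ := by
    obtain ⟨X, i, hX, hirr⟩ := hIrr G
    have h2 := dh_eq_top hStep hFin hC hComp hSub G X i hX
    refine top_le_iff.1 ?_
    rw [← h2]
    exact le_iSup₂_of_le X hirr le_rfl
  refine ⟨fun X i hX => dh_eq_top hStep hFin hC hComp hSub G X i hX, h1, ?_⟩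
  refine top_le_iff.1 ?_
  rw [← h1]
  exact Pool.Agent.H203R3.BH.ds_le_dg (Alg G)

end Pool.Agent.H203R4.DF
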