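import Mathlib

set_option autoImplicit false

namespace Pool.Agent.H203R4.DF

universe u v

/-- The Banach space `ℓ¹(S)`. -/
abbrev L (S : Type u) : Type u := lp (fun _ : S => ℂ) 1

/-- The point mass at `s`. -/
noncomputable def dl {S : Type u} (s : S) : L S := by
  classical
  exact lp.single 1 s (1 : ℂ)

variable {S : Type u} {E : Type v} [NormedAddCommGroup E] [NormedSpace ℂ E] [CompleteSpace E]

lemma hasSum_norm (x : L S) : HasSum (fun i => ‖x i‖) ‖x‖ := by
  have := lp.hasSum_norm (p := 1) (by simp) x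
  simpa using this

lemma summable_norm (x : L S) : Summable (fun i => ‖x i‖) := (hasSum_norm x).summable

lemma norm_apply_le (x : L S) (i : S) : ‖x i‖ ≤ ‖x‖ := lp.norm_apply_le_norm (by simp) x i

lemma sum_norm_le (x : L S) (F : Finset S) : ∑ i ∈ F, ‖x i‖ ≤ ‖x‖ :=
  sum_le_hasSum F (fun _ _ => norm_nonneg _) (hasSum_norm x)

lemma norm_le_of_sum_le (x : L S) (C : ℝ) (h : ∀ F : Finset S, ∑ i ∈ F, ‖x i‖ ≤ C) : ‖x‖ ≤ C :=
  hasSum_le_of_sum_le (hasSum_norm x) h

lemma memlp_of_sum_le (f : S → ℂ) (C : ℝ) (h : ∀ F : Finset S, ∑ i ∈ F, ‖f i‖ ≤ C) :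
    Memℓp f 1 := by
  refine memℓp_gen ?_
  have : Summable (fun i => ‖f i‖) := summable_of_sum_le (fun _ => norm_nonneg _) h
  simpa using this

/-- the element of `ℓ¹` with given coefficients (zero if they are not summable) -/
noncomputable def mk (f : S → ℂ) : L S := by
  classical
  exact if h : Memℓp f 1 then ⟨f, h⟩ else 0

lemma mk_apply (f : S → ℂ) (C : ℝ) (h : ∀ F : Finset S, ∑ i ∈ F, ‖f i‖ ≤ C) (i : S) :
    mk f i = f i := by
  have h1 := memlp_of_sum_le f C h
  simp only [mk, h1, dite_true]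

lemma dl_apply (s t : S) [Decidable (t = s)] : (dl s : L S) t = if t = s then 1 else 0 := by
  classical
  by_cases h : t = s
  · subst h
    simp [dl]
  · simp [dl, h]

lemma dl_self (s : S) : (dl s : L S) s = 1 := by
  classical
  rw [dl_apply, if_pos rfl]

lemma dl_ne (s t : S) (h : t ≠ s) : (dl s : L S) t = 0 := by
  classical
  rw [dl_apply, if_neg h]

lemma norm_dl (s : S) : ‖(dl s : L S)‖ = 1 := by
  classical
  simp [dl, lp.norm_single]

lemma smul_dl (c : ℂ) (s : S) [DecidableEq S] : c • (dl s : L S) = lp.single 1 s c := by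
  ext t
  rw [lp.coeFn_smul, Pi.smul_apply, dl_apply]
  by_cases h : t = s
  · subst h
    simp
  · simp [h]

lemma hasSum_dl (f : L S) : HasSum (fun s => f s • (dl s : L S)) f := by
  classical
  have h := lp.hasSum_single (p := 1) (E := fun _ : S => ℂ) (by simp) f
  have h2 : (fun s => f s • (dl s : L S)) = fun s => lp.single 1 s (f s) := by
    funext s
    exact smul_dl _ _
  rw [h2]
  exact h

lemma summable_ext (v : S → E) (h : ∃ C : ℝ, ∀ s, ‖v s‖ ≤ C) (f : L S) :
    Summable (fun s => f s • v s) := by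
  obtain ⟨C, hC⟩ := h
  refine Summable.of_norm_bounded ((summable_norm f).mul_right C) fun s => ?_
  rw [norm_smul]
  exact mul_le_mul_of_nonneg_left (hC s) (norm_nonneg _)

/-- The bounded operator on `ℓ¹(S)` with `dl s ↦ v s` (for a bounded family `v`; zero otherwise). -/
noncomputable def ext (v : S → E) : L S →L[ℂ] E := by
  classical
  exact if h : ∃ C : ℝ, ∀ s, ‖v s‖ ≤ C then
    LinearMap.mkContinuousOfExistsBound
      { toFun := fun f => ∑' s, f s • v s
        map_add' := fun f g => by
          rw [← (summable_ext v h f).tsum_add (summable_ext v h g)]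
          refine tsum_congr fun s => ?_
          rw [lp.coeFn_add, Pi.add_apply, add_smul]
        map_smul' := fun c f => by
          rw [RingHom.id_apply, ← tsum_const_smul'']
          refine tsum_congr fun s => ?_
          rw [lp.coeFn_smul, Pi.smul_apply, smul_assoc] }
      (by
        obtain ⟨C, hC⟩ := h
        refine ⟨C, fun f => ?_⟩
        refine tsum_of_norm_bounded ((hasSum_norm f).mul_left C) fun s => ?_
        rw [norm_smul, mul_comm]
        exact mul_le_mul_of_nonneg_right (hC s) (norm_nonneg _))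
  else 0

lemma hasSum_ext (v : S → E) (h : ∃ C : ℝ, ∀ s, ‖v s‖ ≤ C) (f : L S) :
    HasSum (fun s => f s • v s) (ext v f) := by
  have h1 : ext v f = ∑' s, f s • v s := by
    simp only [ext, h, dite_true]
    rfl
  rw [h1]
  exact (summable_ext v h f).hasSum

lemma ext_dl (v : S → E) (h : ∃ C : ℝ, ∀ s, ‖v s‖ ≤ C) (s : S) : ext v (dl s) = v s := by
  refine (hasSum_ext v h (dl s)).unique ?_
  have h2 := hasSum_single (f := fun t => (dl s : L S) t • v t) s (fun t ht => by
    rw [dl_ne s t ht, zero_smul])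
  simpa [dl_self] using h2

lemma norm_ext_apply_le (v : S → E) (C : ℝ) (h : ∀ s, ‖v s‖ ≤ C) (f : L S) :
    ‖ext v f‖ ≤ C * ‖f‖ := by
  rw [← (hasSum_ext v ⟨C, h⟩ f).tsum_eq]
  refine tsum_of_norm_bounded ((hasSum_norm f).mul_left C) fun s => ?_
  rw [norm_smul, mul_comm]
  exact mul_le_mul_of_nonneg_right (h s) (norm_nonneg _)

lemma norm_ext_le (v : S → E) (C : ℝ) (hC : 0 ≤ C) (h : ∀ s, ‖v s‖ ≤ C) : ‖ext v‖ ≤ C :=
  ContinuousLinearMap.opNorm_le_bound _ hC (norm_ext_apply_le v C h)

/-- Bounded operators on `ℓ¹(S)` are determined by the values at the point masses. -/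
lemma clm_ext {T T' : L S →L[ℂ] E} (h : ∀ s, T (dl s) = T' (dl s)) : T = T' := by
  ext1 f
  have h1 := (hasSum_dl f).mapL T
  have h2 := (hasSum_dl f).mapL T'
  refine h1.unique ?_
  have h3 : (fun s => T (f s • dl s)) = fun s => T' (f s • dl s) := by
    funext s
    rw [map_smul, map_smul, h s]
  rw [h3]
  exact h2

section act

variable {G : Type u} [Group G] [MulAction G S]

/-- The action of `g` on `ℓ¹(S)`. -/
noncomputable def rho (g : G) : L S →L[ℂ] L S := ext fun x => dl (g • x)

lemma rho_dl (g : G) (x : S) : rho g (dl x : L S) = dl (g • x) :=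
  ext_dl _ ⟨1, fun s => (norm_dl _).le⟩ x

lemma rho_mul (g h : G) (f : L S) : rho (g * h) f = rho g (rho h f) := by
  have : (rho (g * h) : L S →L[ℂ] L S) = (rho g).comp (rho h) := by
    refine clm_ext fun s => ?_
    rw [ContinuousLinearMap.comp_apply, rho_dl, rho_dl, rho_dl, mul_smul]
  rw [this]
  rfl

lemma rho_one (f : L S) : rho (1 : G) f = f := by
  have : (rho (1 : G) : L S →L[ℂ] L S) = ContinuousLinearMap.id ℂ (L S) := by
    refine clm_ext fun s => ?_
    rw [rho_dl, one_smul]
    rfl
  rw [this]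
  rfl

lemma norm_rho_le (g : G) (f : L S) : ‖rho g f‖ ≤ ‖f‖ := by
  have := norm_ext_apply_le (fun x : S => (dl (g • x) : L S)) 1 (fun s => (norm_dl _).le) f
  rwa [one_mul] at this

lemma rho_inv_rho (g : G) (f : L S) : rho g⁻¹ (rho g f) = f := by
  rw [← rho_mul, inv_mul_cancel, rho_one]

lemma rho_rho_inv (g : G) (f : L S) : rho g (rho g⁻¹ f) = f := by
  rw [← rho_mul, mul_inv_cancel, rho_one]

lemma norm_rho (g : G) (f : L S) : ‖rho g f‖ = ‖f‖ := by
  refine le_antisymm (norm_rho_le g f) ?_
  have := norm_rho_le g⁻¹ (rho g f)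
  rwa [rho_inv_rho] at this

lemma rho_apply (g : G) (f : L S) (x : S) : rho g f x = f (g⁻¹ • x) := by
  have h1 := (hasSum_ext (fun x : S => (dl (g • x) : L S)) ⟨1, fun s => (norm_dl _).le⟩ f).mapL
    (lp.evalCLM ℂ (fun _ : S => ℂ) 1 x)
  have h2 : HasSum (fun s => f s • (dl (g • s) : L S) x) (f (g⁻¹ • x)) := by
    have h3 := hasSum_single (f := fun s => f s • (dl (g • s) : L S) x) (g⁻¹ • x) (fun t ht => by
      rw [dl_ne, smul_zero]
      intro h
      exact ht (by rw [h, inv_smul_smul]))
    simpa [dl_self] using h3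
  exact h1.unique h2

end act

/-! ### the complex -/

/-- The sets of tuples: `SS G k` is the set of `k`-tuples of elements of `G`. -/
def SS (G : Type u) : ℕ → Type u
  | 0 => PUnit
  | k + 1 => G × SS G k

/-- The diagonal action on tuples. -/
def sact (G : Type u) [Group G] : ∀ k, G → SS G k → SS G k
  | 0, _, x => x
  | k + 1, g, x => (g * x.1, sact G k g x.2)

instance instActSS (G : Type u) [Group G] (k : ℕ) : MulAction G (SS G k) where
  smul g x := sact G k g x
  one_smul x := by
    induction k with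
    | zero => rfl
    | succ k ih => exact Prod.ext (one_mul _) (ih x.2)
  mul_smul g h x := by
    induction k with
    | zero => rfl
    | succ k ih => exact Prod.ext (mul_assoc _ _ _) (ih x.2)

lemma smul_succ (G : Type u) [Group G] (k : ℕ) (g : G) (x : SS G (k + 1)) :
    g • x = ((g * x.1, g • x.2) : SS G (k + 1)) := rfl

instance instCountableSS (G : Type u) [Countable G] (k : ℕ) : Countable (SS G k) := by
  induction k with
  | zero => exact (inferInstance : Countable PUnit)
  | succ k ih => exact (inferInstance : Countable (G × SS G k))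

/-- Adding a vertex. -/
noncomputable def jn (G : Type u) (k : ℕ) (g : G) : L (SS G k) →L[ℂ] L (SS G (k + 1)) :=
  ext fun y => dl ((g, y) : SS G (k + 1))

/-- The boundary of a tuple. -/
noncomputable def bdv (G : Type u) : ∀ k, SS G (k + 1) → L (SS G k)
  | 0, x => dl x.2
  | k + 1, x => dl x.2 - jn G k x.1 (bdv G k x.2)

/-- The boundary operator. -/
noncomputable def bd (G : Type u) (k : ℕ) : L (SS G (k + 1)) →L[ℂ] L (SS G k) := ext (bdv G k)

/-- The splitting property in degree `k + 1`: a bounded equivariant operator `p` on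
`ℓ¹(G^(k+1))` with `p ∂ = 0` and `∂ p = ∂`. -/
def Splits (G : Type u) [Group G] (k : ℕ) : Prop :=
  ∃ p : L (SS G (k + 1)) →L[ℂ] L (SS G (k + 1)),
    (∀ (g : G) f, p (rho g f) = rho g (p f)) ∧ (∀ f, p (bd G (k + 1) f) = 0) ∧
      ∀ f, bd G k (p f) = bd G k f

end Pool.Agent.H203R4.DF
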