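import Pool.Agent.H203R4.DF.Stmts

set_option autoImplicit false

/-! Project H203DF (MP_df984a_an), task Hom. -/

namespace Pool.Agent.H203R4.DF

open Pool.Agent.Helper832.CD

universe u

/-- the difference of the two sides, as a linear map of the algebra element -/
noncomputable def homDiff {G : Type u} [Group G] (X Y : LMod (Alg G)) (f : X.carrier → Y.carrier)
    (hf : IsBoundedLinearMap ℂ f) (x : X.carrier) : Alg G →ₗ[ℂ] Y.carrier where
  toFun b := f (X.act b x) - Y.act b (f x)
  map_add' a b := by
    have h1 := X.bdd.add_left a b x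
    have h2 := Y.bdd.add_left a b (f x)
    simp only at h1 h2
    rw [h1, h2, hf.toIsLinearMap.map_add]
    abel
  map_smul' c b := by
    have h1 := X.bdd.smul_left c b x
    have h2 := Y.bdd.smul_left c b (f x)
    simp only at h1 h2
    rw [h1, h2, hf.toIsLinearMap.map_smul, RingHom.id_apply, smul_sub]

theorem hom : TaskHom := by
  intro G _ X Y f hf hg
  refine ⟨hf, fun b x => ?_⟩
  have c1 : Continuous (fun b : Alg G => f (X.act b x)) :=
    hf.continuous.comp (X.bdd.continuous.comp (continuous_id.prodMk continuous_const))
  have c2 : Continuous (fun b : Alg G => Y.act b (f x)) :=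
    Y.bdd.continuous.comp (continuous_id.prodMk continuous_const)
  induction b using UniformSpace.Completion.induction_on with
  | hp => exact isClosed_eq c1 c2
  | ih w =>
    have h1 : (w : Alg G) = ∑ s ∈ (MonoidAlgebra.coeff w).support,
        (MonoidAlgebra.coeff w s) • dg1 s := by
      conv_lhs => rw [H263R3.Arens.walg_eq_sum (H263R3.Arens.Weight.trivial G) w]
      exact H263R3.Arens.coe_sum_smul (E := H263R3.Arens.WAlg G (H263R3.Arens.Weight.trivial G))
        (MonoidAlgebra.coeff w).support
        (fun s => MonoidAlgebra.coeff w s)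
        (fun s => H263R3.Arens.sgl (H263R3.Arens.Weight.trivial G) s 1)
    have h2 : homDiff X Y f hf x (w : Alg G) = 0 := by
      rw [h1, map_sum]
      refine Finset.sum_eq_zero fun s _ => ?_
      rw [map_smul]
      have h3 : homDiff X Y f hf x (dg1 s) = 0 := sub_eq_zero.2 (hg s x)
      rw [h3, smul_zero]
    exact sub_eq_zero.1 h2

end Pool.Agent.H203R4.DF
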