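import Pool.Agent.H203R4.DF.Stmts

set_option autoImplicit false

namespace Pool.Agent.H203R4.DF

open Topology

universe u

/-- Families of functions. -/
def ZZ (T S : Type u) : Type u := T → S → ℂ

variable {T S : Type u}

noncomputable instance instTopZZ : TopologicalSpace (ZZ T S) := inferInstanceAs (TopologicalSpace (T → S → ℂ))

instance instT2ZZ : T2Space (ZZ T S) := inferInstanceAs (T2Space (T → S → ℂ))

instance instActZZ {G : Type u} [Group G] [MulAction G T] [MulAction G S] :
    MulAction G (ZZ T S) where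
  smul g z := fun t s => z (g⁻¹ • t) (g⁻¹ • s)
  one_smul z := by
    funext t s
    show z ((1 : G)⁻¹ • t) ((1 : G)⁻¹ • s) = z t s
    simp
  mul_smul g h z := by
    funext t s
    show z ((g * h)⁻¹ • t) ((g * h)⁻¹ • s) = z (h⁻¹ • g⁻¹ • t) (h⁻¹ • g⁻¹ • s)
    simp [mul_smul]

lemma smulZ {G : Type u} [Group G] [MulAction G T] [MulAction G S] (g : G) (z : ZZ T S)
    (t : T) (s : S) : (g • z) t s = z (g⁻¹ • t) (g⁻¹ • s) := rfl

lemma cont_eval (t : T) (s : S) : Continuous (fun z : ZZ T S => z t s) :=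
  (continuous_apply s).comp (continuous_apply (A := fun _ : T => S → ℂ) t)

lemma cont_smulZ {G : Type u} [Group G] [MulAction G T] [MulAction G S] (g : G) :
    Continuous (fun z : ZZ T S => g • z) := by
  refine continuous_pi fun t => continuous_pi fun s => ?_
  exact cont_eval (g⁻¹ • t) (g⁻¹ • s)

/-- The ball of bounded families in `ℓ¹(S)`. -/
def BZ (T S : Type u) (R : ℝ) : Set (ZZ T S) := {z | ∀ (t : T) (F : Finset S), ∑ s ∈ F, ‖z t s‖ ≤ R}

lemma isCompact_BZ (R : ℝ) : IsCompact (BZ T S R) := by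
  have h1 : IsCompact (Set.pi Set.univ fun _ : T => Set.pi Set.univ fun _ : S =>
      Metric.closedBall (0 : ℂ) R) :=
    isCompact_univ_pi fun _ => isCompact_univ_pi fun _ => isCompact_closedBall 0 R
  have h2 : IsClosed (BZ T S R) := by
    have : BZ T S R = ⋂ (t : T) (F : Finset S), {z | ∑ s ∈ F, ‖z t s‖ ≤ R} := by
      ext z
      simp [BZ]
    rw [this]
    refine isClosed_iInter fun t => isClosed_iInter fun F => isClosed_le ?_ continuous_const
    exact continuous_finsetSum _ fun s _ => (cont_eval t s).norm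
  refine IsCompact.of_isClosed_subset (X := ZZ T S) h1 h2 fun z hz t _ s _ => ?_
  rw [mem_closedBall_zero_iff]
  simpa using hz t {s}

lemma BZ_smul {G : Type u} [Group G] [MulAction G T] [MulAction G S] (R : ℝ) (g : G)
    (z : ZZ T S) (hz : z ∈ BZ T S R) : g • z ∈ BZ T S R := by
  classical
  intro t F
  have h := hz (g⁻¹ • t) (F.image (fun s => g⁻¹ • s))
  rw [Finset.sum_image (fun a _ b _ hab => MulAction.injective g⁻¹ hab)] at h
  exact h

/-- The operator of a family. -/
noncomputable def Zop (z : ZZ T S) : L T →L[ℂ] L S := ext fun t => mk (z t)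

lemma norm_mk_le (R : ℝ) (z : ZZ T S) (hz : z ∈ BZ T S R) (t : T) : ‖(mk (z t) : L S)‖ ≤ R := by
  refine norm_le_of_sum_le _ R fun F => ?_
  simp only [mk_apply (z t) R (hz t)]
  exact hz t F

lemma Zop_dl (R : ℝ) (z : ZZ T S) (hz : z ∈ BZ T S R) (t : T) : Zop z (dl t) = mk (z t) :=
  ext_dl _ ⟨R, fun t => norm_mk_le R z hz t⟩ t

lemma Zop_apply_le (R : ℝ) (z : ZZ T S) (hz : z ∈ BZ T S R) (f : L T) : ‖Zop z f‖ ≤ R * ‖f‖ :=
  norm_ext_apply_le _ R (norm_mk_le R z hz) f

lemma Zop_smul {G : Type u} [Group G] [MulAction G T] [MulAction G S] (R : ℝ) (g : G)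
    (z : ZZ T S) (hz : z ∈ BZ T S R) (f : L T) : Zop (g • z) (rho g f) = rho g (Zop z f) := by
  have h : (Zop (g • z)).comp (rho g) = (rho g).comp (Zop z) := by
    refine clm_ext fun t => ?_
    rw [ContinuousLinearMap.comp_apply, ContinuousLinearMap.comp_apply, rho_dl,
      Zop_dl R _ (BZ_smul R g z hz), Zop_dl R z hz]
    ext s
    rw [rho_apply, mk_apply _ R (hz t), mk_apply _ R (BZ_smul R g z hz (g • t)), smulZ,
      inv_smul_smul]
  exact congrArg (fun A => A f) h

/-- weak-star continuity -/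
lemma continuousOn_Zop (R : ℝ) (f : L T) (a : S) :
    ContinuousOn (fun z : ZZ T S => Zop z f a) (BZ T S R) := by
  have h1 : ∀ z ∈ BZ T S R, Zop z f a = ∑' t, f t * z t a := by
    intro z hz
    have h2 := (hasSum_ext (fun t => (mk (z t) : L S)) ⟨R, fun t => norm_mk_le R z hz t⟩ f).mapL
      (lp.evalCLM ℂ (fun _ : S => ℂ) 1 a)
    have h3 : (fun t => (lp.evalCLM ℂ (fun _ : S => ℂ) 1 a) (f t • (mk (z t) : L S))) =
        fun t => f t * z t a := by
      funext t
      rw [map_smul, smul_eq_mul]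
      congr 1
      exact mk_apply (z t) R (hz t) a
    rw [h3] at h2
    exact h2.tsum_eq.symm
  refine ContinuousOn.congr ?_ h1
  refine continuousOn_tsum (u := fun t => ‖f t‖ * R)
    (fun t => ((cont_eval t a).continuousOn.const_smul (f t)).congr fun z _ => by
      simp [smul_eq_mul]) ((summable_norm f).mul_right R) fun t z hz => ?_
  rw [norm_mul]
  refine mul_le_mul_of_nonneg_left ?_ (norm_nonneg _)
  simpa using hz t {a}

end Pool.Agent.H203R4.DF
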