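import Pool.Agent.H203R4.DF.StepA

set_option autoImplicit false

namespace Pool.Agent.H203R4.DF

open Topology Filter

universe u

variable {T S : Type u}

/-- The set of points of small oscillation is open. -/
lemma isOpen_osc {W : Type u} [TopologicalSpace W] (p : W → W → Prop) :
    IsOpen {w : W | ∃ U : Set W, IsOpen U ∧ w ∈ U ∧ ∀ w' ∈ U, ∀ w'' ∈ U, p w' w''} := by
  rw [isOpen_iff_forall_mem_open]
  rintro w ⟨U, hU, hwU, h⟩
  exact ⟨U, fun v hv => ⟨U, hU, hv, h⟩, hU, hwU⟩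

/-- The operator family of the next state. -/
noncomputable def PP (D : L S →L[ℂ] L T) (z : ZZ T S) : L T →L[ℂ] L T :=
  ContinuousLinearMap.id ℂ (L T) - D.comp (Zop z)

lemma PP_apply (D : L S →L[ℂ] L T) (z : ZZ T S) (f : L T) : PP D z f = f - D (Zop z f) := rfl

/-- From the fiber relation to the final algebra. -/
lemma limit_rel {G : Type u} [Group G] [MulAction G S] [MulAction G T]
    (D : L S →L[ℂ] L T) (s : L T →L[ℂ] L S)
    (hD : ∀ (g : G) (f : L S), D (rho g f) = rho g (D f))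
    {Y : Type u} [TopologicalSpace Y] [MulAction G Y] (y0 : Y) (P : Y → (L S →L[ℂ] L S))
    (hP : ∀ (g : G) (y : Y) (f : L S), P (g • y) (rho g f) = rho g (P y f))
    (hV1 : ∀ f, P y0 (s (D f)) = P y0 f) (hV2 : ∀ f, D (P y0 f) = D f)
    (R : ℝ) (z0 : ZZ T S) (hz0 : z0 ∈ BZ T S R) (hz0' : ∀ f, Zop z0 f = P y0 (s f))
    (w1 : Y × ZZ T S) (hw1 : w1.2 ∈ BZ T S R)
    (hcl : w1 ∈ closure (Set.range fun g : G => g • ((y0, z0) : Y × ZZ T S)))
    (hc : ∀ x : S, ContinuousAt (fun y => P y (dl x)) w1.1) :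
    (∀ f, Zop w1.2 (D f) = P w1.1 f) ∧ ∀ f, D (P w1.1 f) = D f := by
  set O : Set (Y × ZZ T S) := Set.range fun g : G => g • ((y0, z0) : Y × ZZ T S) with hO
  have hne : (𝓝[O] w1).NeBot := mem_closure_iff_nhdsWithin_neBot.1 hcl
  have e1 : ∀ w ∈ O, ∀ x : S, Zop w.2 (D (dl x)) = P w.1 (dl x) := by
    rintro w ⟨g, rfl⟩ x
    show Zop (g • z0) (D (dl x)) = P (g • y0) (dl x)
    have h1 : (dl x : L S) = rho g (rho g⁻¹ (dl x)) := (rho_rho_inv g _).symm
    rw [h1, hD, Zop_smul R g z0 hz0, hz0', hV1, hP]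
  have e2 : ∀ w ∈ O, ∀ x : S, D (P w.1 (dl x)) = D (dl x) := by
    rintro w ⟨g, rfl⟩ x
    show D (P (g • y0) (dl x)) = D (dl x)
    have h1 : (dl x : L S) = rho g (rho g⁻¹ (dl x)) := (rho_rho_inv g _).symm
    rw [h1, hP, hD, hV2, hD, rho_rho_inv, rho_rho_inv]
  have hBO : ∀ w ∈ O, w.2 ∈ BZ T S R := by
    rintro w ⟨g, rfl⟩
    exact BZ_smul R g z0 hz0
  have hPt : ∀ x : S, Tendsto (fun w : Y × ZZ T S => P w.1 (dl x)) (𝓝[O] w1)
      (𝓝 (P w1.1 (dl x))) := by
    intro x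
    have h1 : Tendsto (fun w : Y × ZZ T S => w.1) (𝓝[O] w1) (𝓝 w1.1) :=
      (continuous_fst.tendsto w1).mono_left nhdsWithin_le_nhds
    exact (hc x).tendsto.comp h1
  constructor
  · have h1 : (Zop w1.2).comp D = P w1.1 := by
      refine clm_ext fun x => ?_
      rw [ContinuousLinearMap.comp_apply]
      ext a
      have h2 : Tendsto (fun w : Y × ZZ T S => Zop w.2 (D (dl x)) a) (𝓝[O] w1)
          (𝓝 (Zop w1.2 (D (dl x)) a)) := by
        have h3 := (continuousOn_Zop R (D (dl x)) a) w1.2 hw1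
        refine h3.tendsto.comp (tendsto_nhdsWithin_iff.2 ⟨?_, ?_⟩)
        · exact (continuous_snd.tendsto w1).mono_left nhdsWithin_le_nhds
        · filter_upwards [self_mem_nhdsWithin] with w hw
          exact hBO w hw
      have h4 : Tendsto (fun w : Y × ZZ T S => P w.1 (dl x) a) (𝓝[O] w1)
          (𝓝 (P w1.1 (dl x) a)) :=
        ((lp.evalCLM ℂ (fun _ : S => ℂ) 1 a).continuous.tendsto _).comp (hPt x)
      refine tendsto_nhds_unique (h2.congr' ?_) h4
      filter_upwards [self_mem_nhdsWithin] with w hw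
      rw [e1 w hw x]
    intro f
    exact congrArg (fun A => A f) h1
  · have h1 : D.comp (P w1.1) = D := by
      refine clm_ext fun x => ?_
      rw [ContinuousLinearMap.comp_apply]
      have h2 : Tendsto (fun w : Y × ZZ T S => D (P w.1 (dl x))) (𝓝[O] w1)
          (𝓝 (D (P w1.1 (dl x)))) := (D.continuous.tendsto _).comp (hPt x)
      refine tendsto_nhds_unique h2 (tendsto_const_nhds.congr' ?_)
      filter_upwards [self_mem_nhdsWithin] with w hw
      rw [e2 w hw x]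
    intro f
    exact congrArg (fun A => A f) h1

/-- Oscillation at the points of the orbit of a point of continuity. -/
lemma osc_orbit {G : Type u} [Group G] [MulAction G S]
    {Y : Type u} [TopologicalSpace Y] [MulAction G Y] (hG : ∀ g : G, Continuous fun y : Y => g • y)
    (y0 : Y) (P : Y → (L S →L[ℂ] L S))
    (hP : ∀ (g : G) (y : Y) (f : L S), P (g • y) (rho g f) = rho g (P y f))
    (hc : ∀ x : S, ContinuousAt (fun y => P y (dl x)) y0) (x : S) (g : G) (ε : ℝ) (hε : 0 < ε) :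
    ∃ U : Set Y, IsOpen U ∧ g • y0 ∈ U ∧ ∀ y' ∈ U, ∀ y'' ∈ U, ‖P y' (dl x) - P y'' (dl x)‖ ≤ ε := by
  have h1 := Metric.continuousAt_iff'.1 (hc (g⁻¹ • x)) (ε / 2) (by positivity)
  obtain ⟨U0, hU0, hU0o, hU0y⟩ := mem_nhds_iff.1 h1
  refine ⟨(fun y => g⁻¹ • y) ⁻¹' U0, hU0o.preimage (hG g⁻¹), ?_, fun y' hy' y'' hy'' => ?_⟩
  · show g⁻¹ • g • y0 ∈ U0
    rwa [inv_smul_smul]
  · have key : ∀ y : Y, P y (dl x) = rho g (P (g⁻¹ • y) (dl (g⁻¹ • x))) := by
      intro y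
      rw [← hP g, rho_dl, smul_inv_smul, smul_inv_smul]
    rw [key y', key y'', ← map_sub, norm_rho]
    have h2 := hU0 hy'
    have h3 := hU0 hy''
    simp only [Set.mem_ofPred_eq, dist_eq_norm] at h2 h3
    have h4 := norm_sub_le (P (g⁻¹ • y') (dl (g⁻¹ • x)) - P y0 (dl (g⁻¹ • x)))
      (P (g⁻¹ • y'') (dl (g⁻¹ • x)) - P y0 (dl (g⁻¹ • x)))
    rw [sub_sub_sub_cancel_right] at h4
    linarith

end Pool.Agent.H203R4.DF
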